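import Pool.Agent.Helper5K9.ZN.All
import Pool.Agent.Helper5K9.ZN.Game

/-!
# The zombie number of the toroidal grid, `n` odd: the order `n^(3/2)` up to a power of `log n`

The game, the probability `s_k(G)` that the survivor wins under optimal play and the zombie number
`z(G)` are defined in `Pool.Agent.Helper57K9.Zomb.Game`; the upper bound `2561 n^(3/2)` is the result
`ThreeHalvesUpperBound` of this problem. New here is the lower bound.

Idea of the proof of the lower bound. The survivor moves only to the east and to the north, in such a
way that the difference `D` of the numbers of these moves stays bounded by a power of `log n`. Then a
zombie (a random walk in the frame of the survivor) is in front of the survivor and within a distance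
`r` of him at a given time with a probability of at most `C r^14 n^(-3/2)`: zombies come directly from
the north-east, where the two coordinates of a zombie run to zero with speed one, and only near the
two axes they are slow; there the other coordinate is a reflected random walk with no drift, which is
near zero with a probability of order `n^(-1/2)`. This has to be shown for all paths of the survivor at
once, for given coins of the zombie. Hence with `k = c n^(3/2) / (log n)^35` zombies there are at all
times less than `O(log n)` zombies in front of the survivor and nearby. Against them he plays as
follows. He moves to the east during long blocks when `D` is below a lane, to the north when `D` is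
above the lane, and dodges when a zombie is in his way; a dodge in an eastern block is a move to the
north, and it is safe since the zombies in the north have been left behind during the block. The
lanes are chosen such that zombies from the north-east, whose distance to the lane is almost constant
and which are seen early, do not come near; the times of the changes of lanes are chosen such that no
such zombie arrives then. Zombies which have passed stay behind for ever, and after a polynomial time
all zombies have passed.
-/

set_option autoImplicit false

namespace Pool.Agent.Helper5K9.Old.OddTorusOrder

open Pool.Agent.Helper57K9.Zomb Pool.Agent.Helper5K9.ZN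

/-- There is a constant `c > 0` such that for all odd `n ≥ 3` the zombie number of `C_n □ C_n` lies
between `c n^(3/2) / (log n)^35` and `2561 n^(3/2)`. -/
theorem result : ∃ c : ℝ, 0 < c ∧ ∀ n : ℕ, 3 ≤ n → Odd n →
    c * (n : ℝ) ^ (3 / 2 : ℝ) / Real.log n ^ 35 ≤ (zombieNumber (torus n) : ℝ) ∧
    (zombieNumber (torus n) : ℝ) ≤ 2561 * (n : ℝ) ^ (3 / 2 : ℝ) := by
  obtain ⟨c, hc, h⟩ := final_odd' game
  refine ⟨c, hc, fun n hn ho => ⟨h n hn ho, ?_⟩⟩
  have h1 : (n : ℝ) ^ (3 / 2 : ℝ) = (n : ℝ) * Real.sqrt n := by
    rw [Real.sqrt_eq_rpow, show (3 / 2 : ℝ) = 1 + 1 / 2 by norm_num,
      Real.rpow_add (by have : 0 < n := by omega
                        exact_mod_cast this), Real.rpow_one]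
  rw [h1]
  exact zombieNumber_le n hn

end Pool.Agent.Helper5K9.Old.OddTorusOrder
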